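import Mathlib

/-!
Hausdorff first countable spaces with countable piecewise weak Lindelöf number: their possible
cardinalities are exactly the cardinals below the first measurable one.
-/

set_option autoImplicit false

open Set Topology TopologicalSpace Filter

universe u

namespace Pool.Agent.Results.MP_8b81fd_gt.NotBounded

/-- `pwL(X) ≤ ℵ₀`: for every open cover `𝒰` of `X` and every decomposition `(D i)` of `𝒰` there are
countable `V i ⊆ D i` such that the sets `closure (⋃ V i)` cover `X`. -/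
def PwLCountable (X : Type u) [TopologicalSpace X] : Prop :=
  ∀ 𝒰 : Set (Set X), (∀ U ∈ 𝒰, IsOpen U) → ⋃₀ 𝒰 = univ →
    ∀ (I : Type u) (D : I → Set (Set X)), (⋃ i, D i) = 𝒰 →
      ∃ V : I → Set (Set X), (∀ i, V i ⊆ D i ∧ (V i).Countable) ∧
        (⋃ i, closure (⋃₀ V i)) = univ

/-- `X` is almost Lindelöf: every open cover has a countable subfamily the closures of whose members
cover `X`. -/
def AlmostLindelof (X : Type u) [TopologicalSpace X] : Prop :=
  ∀ 𝒰 : Set (Set X), (∀ U ∈ 𝒰, IsOpen U) → ⋃₀ 𝒰 = univ →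
    ∃ 𝒱 ⊆ 𝒰, 𝒱.Countable ∧ (⋃ V ∈ 𝒱, closure V) = univ

/-- Every countably complete ultrafilter on `K` is principal. -/
def NonMeasurable (K : Type u) : Prop :=
  ∀ 𝒢 : Ultrafilter K, CountableInterFilter (𝒢 : Filter K) → ∃ a : K, {a} ∈ 𝒢

theorem AlmostLindelof.pwL {X : Type u} [TopologicalSpace X] (h : AlmostLindelof X) :
    PwLCountable X := by
  intro 𝒰 hU hcov I D hD
  obtain ⟨𝒱, hV, hc, hcl⟩ := h 𝒰 hU hcov
  refine ⟨fun i => 𝒱 ∩ D i, fun i => ⟨inter_subset_right, hc.mono inter_subset_left⟩, ?_⟩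
  rw [eq_univ_iff_forall] at hcl ⊢
  intro x
  obtain ⟨V, hV', hx⟩ := mem_iUnion₂.1 (hcl x)
  have := hV hV'
  rw [← hD] at this
  obtain ⟨i, hi⟩ := mem_iUnion.1 this
  exact mem_iUnion.2 ⟨i, closure_mono (subset_sUnion_of_mem (show V ∈ 𝒱 ∩ D i from ⟨hV', hi⟩)) hx⟩

/-! ### Non-measurable sets -/

theorem exists_mem_of_iUnion {K : Type u} {𝒢 : Ultrafilter K}
    (h𝒢 : CountableInterFilter (𝒢 : Filter K)) {A : ℕ → Set K} (h : (⋃ n, A n) ∈ 𝒢) :
    ∃ n, A n ∈ 𝒢 := by
  by_contra hcon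
  push Not at hcon
  have h1 : ∀ n, (A n)ᶜ ∈ (𝒢 : Filter K) := fun n => Ultrafilter.compl_mem_iff_notMem.2 (hcon n)
  have h2 : (⋂ n, (A n)ᶜ) ∈ (𝒢 : Filter K) := countable_iInter_mem.2 h1
  have h3 := inter_mem h2 h
  rw [← compl_iUnion, compl_inter_self] at h3
  exact 𝒢.neBot.ne (empty_mem_iff_bot.1 h3)

theorem nonMeasurable_of_countable {K : Type u} [Countable K] : NonMeasurable K := by
  intro 𝒢 h𝒢
  by_contra hcon
  push Not at hcon
  have h1 : ∀ a : K, ({a} : Set K)ᶜ ∈ (𝒢 : Filter K) :=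
    fun a => Ultrafilter.compl_mem_iff_notMem.2 (hcon a)
  have h2 : (⋂ a : K, ({a} : Set K)ᶜ) ∈ (𝒢 : Filter K) := countable_iInter_mem.2 h1
  have h3 : (⋂ a : K, ({a} : Set K)ᶜ) = ∅ := by
    ext x
    simp
  rw [h3] at h2
  exact 𝒢.neBot.ne (empty_mem_iff_bot.1 h2)

theorem map_ci {K L : Type u} {𝒢 : Ultrafilter K} (h𝒢 : CountableInterFilter (𝒢 : Filter K))
    (g : K → L) : CountableInterFilter ((𝒢.map g : Ultrafilter L) : Filter L) := by
  rw [Ultrafilter.coe_map]
  infer_instance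

theorem NonMeasurable.arrow {S : Type u} (hS : NonMeasurable S) : NonMeasurable (S → ℕ) := by
  intro 𝒢 h𝒢
  have h1 : ∀ a : S, ∃ n : ℕ, {f : S → ℕ | f a = n} ∈ 𝒢 := by
    intro a
    apply exists_mem_of_iUnion h𝒢
    have : (⋃ n : ℕ, {f : S → ℕ | f a = n}) = univ := by
      ext f
      simp
    rw [this]
    exact univ_mem
  choose z hz using h1
  refine ⟨z, ?_⟩
  by_contra hcon
  have hc : ({z} : Set (S → ℕ))ᶜ ∈ 𝒢 := Ultrafilter.compl_mem_iff_notMem.2 hcon
  have h2 : ∀ f : S → ℕ, f ≠ z → ∃ a, f a ≠ z a := fun f hf => Function.ne_iff.1 hf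
  obtain ⟨f₀, hf₀⟩ := 𝒢.nonempty_of_mem hc
  obtain ⟨a₀, -⟩ := h2 f₀ hf₀
  classical
  let g : (S → ℕ) → S := fun f => if h : f ≠ z then (h2 f h).choose else a₀
  obtain ⟨a, ha⟩ := hS (𝒢.map g) (map_ci h𝒢 g)
  have h3 : g ⁻¹' {a} ∈ 𝒢 := ha
  obtain ⟨f, ⟨hf1, hf2⟩, hf3⟩ := 𝒢.nonempty_of_mem (inter_mem (inter_mem h3 hc) (hz a))
  have hf2' : f ≠ z := hf2
  have h4 : g f = a := hf1
  have h5 : f (g f) ≠ z (g f) := by
    change f (if h : f ≠ z then (h2 f h).choose else a₀) ≠
      z (if h : f ≠ z then (h2 f h).choose else a₀)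
    rw [dif_pos hf2']
    exact (h2 f hf2').choose_spec
  rw [h4] at h5
  exact h5 hf3

theorem NonMeasurable.prod {S T : Type u} (hS : NonMeasurable S) (hT : NonMeasurable T) :
    NonMeasurable (S × T) := by
  intro 𝒢 h𝒢
  obtain ⟨a, ha⟩ := hS (𝒢.map Prod.fst) (map_ci h𝒢 _)
  obtain ⟨b, hb⟩ := hT (𝒢.map Prod.snd) (map_ci h𝒢 _)
  refine ⟨(a, b), ?_⟩
  have ha' : Prod.fst ⁻¹' {a} ∈ 𝒢 := ha
  have hb' : Prod.snd ⁻¹' {b} ∈ 𝒢 := hb
  refine mem_of_superset (inter_mem ha' hb') ?_
  rintro ⟨x, y⟩ ⟨hx, hy⟩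
  exact Prod.ext hx hy

/-- The key combinatorial lemma. -/
theorem exists_countable {S : Type u} (hS : NonMeasurable S) (n : (S → ℕ) → ℕ) :
    ∃ C : Set (S → ℕ), C.Countable ∧ {x | ∀ c ∈ C, c x < n c}.Countable := by
  by_contra hcon
  push Not at hcon
  let Null : Set S → Prop := fun N =>
    ∃ C : Set (S → ℕ), C.Countable ∧ ({x | ∀ c ∈ C, c x < n c} ∩ N).Countable
  have huniv : ¬ Null univ := by
    rintro ⟨C, hC, h⟩
    rw [inter_univ] at h
    exact hcon C hC h
  have hmono : ∀ A B : Set S, A ⊆ B → Null B → Null A := by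
    rintro A B hAB ⟨C, hC, h⟩
    exact ⟨C, hC, h.mono (inter_subset_inter_right _ hAB)⟩
  have hunion : ∀ (𝒜 : Set (Set S)), 𝒜.Countable → (∀ A ∈ 𝒜, Null A) → Null (⋃₀ 𝒜) := by
    intro 𝒜 h𝒜 h
    choose! C hC hC' using h
    refine ⟨⋃ A ∈ 𝒜, C A, h𝒜.biUnion hC, (h𝒜.biUnion hC').mono ?_⟩
    rintro x ⟨hx, A, hA, hxA⟩
    refine mem_biUnion hA ⟨fun c hc => ?_, hxA⟩
    exact hx c (mem_biUnion hA hc)
  have hunion2 : ∀ A B : Set S, Null A → Null B → Null (A ∪ B) := by
    intro A B hA hB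
    have := hunion {A, B} ((countable_singleton B).insert A) (by
      rintro X (rfl | rfl)
      · exact hA
      · exact hB)
    rwa [sUnion_pair] at this
  have hsing : ∀ a : S, Null {a} := fun a =>
    ⟨∅, countable_empty, (countable_singleton a).mono inter_subset_right⟩
  have hge : ∀ c : S → ℕ, Null {x | n c ≤ c x} := by
    intro c
    refine ⟨{c}, countable_singleton c, ?_⟩
    have : {x | ∀ d ∈ ({c} : Set (S → ℕ)), d x < n d} ∩ {x | n c ≤ c x} = ∅ := by
      ext x
      simp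
    rw [this]
    exact countable_empty
  have hatom : ∃ P, ¬ Null P ∧ ∀ A, Null (P ∩ A) ∨ Null (P \ A) := by
    by_contra hno
    push Not at hno
    choose! A hA1 hA2 using hno
    let Q : ℕ → {P : Set S // ¬ Null P} := fun i =>
      Nat.rec ⟨univ, huniv⟩ (fun _ P => ⟨P.1 \ A P.1, hA2 P.1 P.2⟩) i
    have hQs : ∀ i, (Q (i + 1)).1 = (Q i).1 \ A (Q i).1 := fun i => rfl
    have hanti : ∀ i j, i ≤ j → (Q j).1 ⊆ (Q i).1 := by
      intro i j hij
      induction hij with
      | refl => exact subset_rfl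
      | step _ ih =>
        intro x hx
        rw [hQs] at hx
        exact ih hx.1
    let c : S → ℕ := fun x => sInf {i | x ∉ (Q (i + 1)).1}
    have hP : ∀ i, ∀ x ∈ (Q i).1 ∩ A (Q i).1, c x = i := by
      rintro i x ⟨h1, h2⟩
      apply le_antisymm
      · apply Nat.sInf_le
        change x ∉ (Q (i + 1)).1
        rw [hQs]
        exact fun h => h.2 h2
      · apply le_csInf
        · exact ⟨i, by
            change x ∉ (Q (i + 1)).1
            rw [hQs]
            exact fun h => h.2 h2⟩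
        · intro j hj
          by_contra hlt
          push Not at hlt
          exact hj (hanti (j + 1) i hlt h1)
    apply hA1 (Q (n c)).1 (Q (n c)).2
    refine hmono _ _ ?_ (hge c)
    intro x hx
    exact (hP _ x hx).ge
  obtain ⟨P, hP, hPA⟩ := hatom
  let f : Filter S :=
    { sets := {A | Null (P \ A)}
      univ_sets := by
        change Null (P \ univ)
        rw [sdiff_univ]
        exact hmono _ _ (empty_subset _) (hge (fun _ => 0))
      sets_of_superset := fun {A B} hA hAB => hmono _ _ (sdiff_subset_sdiff_right hAB) hA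
      inter_sets := fun {A B} hA hB => by
        change Null (P \ (A ∩ B))
        rw [sdiff_inter]
        exact hunion2 _ _ hA hB }
  have hf : ∀ A, A ∈ f ↔ Null (P \ A) := fun A => Iff.rfl
  let 𝒢 : Ultrafilter S := Ultrafilter.ofComplNotMemIff f (by
    intro A
    rw [hf, hf]
    constructor
    · intro h
      rcases hPA A with h' | h'
      · exact absurd (by rwa [sdiff_compl]) h
      · exact h'
    · intro h h'
      rw [sdiff_compl] at h'
      apply hP
      rw [← inter_union_sdiff P A]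
      exact hunion2 _ _ h' h)
  have h𝒢 : CountableInterFilter (𝒢 : Filter S) := by
    refine ⟨fun 𝒮 h𝒮 h => ?_⟩
    change Null (P \ ⋂₀ 𝒮)
    have h1 := hunion ((fun A => P \ A) '' 𝒮) (h𝒮.image _) (by
      rintro _ ⟨A, hA, rfl⟩
      exact h A hA)
    refine hmono _ _ ?_ h1
    rintro x ⟨hx, hx'⟩
    rw [mem_sInter] at hx'
    push Not at hx'
    obtain ⟨A, hA, hxA⟩ := hx'
    exact ⟨P \ A, ⟨A, hA, rfl⟩, hx, hxA⟩
  obtain ⟨a, ha⟩ := hS 𝒢 h𝒢
  have h1 : Null (P \ {a}) := ha
  apply hP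
  refine hmono _ _ ?_ (hunion2 _ _ h1 (hsing a))
  intro x hx
  by_cases hxa : x ∈ ({a} : Set S)
  · exact Or.inr hxa
  · exact Or.inl ⟨hx, hxa⟩

/-! ### The space -/

/-- Codes of the classes of points: the base, functions on a class, and links of order `j`. -/
inductive Code : Type
  | base : Code
  | F : Code → Code
  | L : ℕ → Code → Code

/-- The codes form a countable set. -/
def Code.toList : Code → List ℕ
  | .base => []
  | .F t => 0 :: t.toList
  | .L j t => (j + 1) :: t.toList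

theorem Code.toList_injective : Function.Injective Code.toList := by
  intro s
  induction s with
  | base =>
    intro t h
    cases t <;> simp [Code.toList] at h ⊢
  | F s ih =>
    intro t h
    cases t with
    | base => simp [Code.toList] at h
    | F t => simp only [Code.toList, List.cons.injEq, true_and] at h; rw [ih h]
    | L j t => simp [Code.toList] at h
  | L i s ih =>
    intro t h
    cases t with
    | base => simp [Code.toList] at h
    | F t => simp [Code.toList] at h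
    | L j t =>
      simp only [Code.toList, List.cons.injEq, add_left_inj] at h
      rw [h.1, ih h.2]

instance : Countable Code := Code.toList_injective.countable

/-- The points of a class. -/
def El (K : Type u) : Code → Type u
  | .base => K
  | .F t => El K t → ℕ
  | .L _ t => El K t × (El K t → ℕ)

/-- The points of the space. -/
def X (K : Type u) : Type u := Σ t : Code, El K t

variable {K : Type u}

/-- The admissible edges. -/
inductive Adm (m : ℕ) : X K → X K → Prop
  | fst (t : Code) (j : ℕ) (x : El K t) (c : El K t → ℕ) (h : m ≤ j) :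
      Adm m ⟨t, x⟩ ⟨.L j t, (x, c)⟩
  | snd (t : Code) (j : ℕ) (x : El K t) (c : El K t → ℕ) (h : m ≤ j) (h' : m ≤ c x) :
      Adm m ⟨.F t, c⟩ ⟨.L j t, (x, c)⟩

/-- The basic neighbourhoods. -/
def B (m : ℕ) (y : X K) : Set (X K) := {z | Relation.ReflTransGen (Adm m) y z}

theorem Adm.anti {m m' : ℕ} (h : m ≤ m') {y z : X K} (hyz : Adm m' y z) : Adm m y z := by
  cases hyz with
  | fst t j x c h1 => exact .fst t j x c (h.trans h1)
  | snd t j x c h1 h2 => exact .snd t j x c (h.trans h1) (h.trans h2)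

theorem B_anti {m m' : ℕ} (h : m ≤ m') (y : X K) : B m' y ⊆ B m y :=
  fun _ hz => Relation.ReflTransGen.mono (fun _ _ => Adm.anti h) _ _ hz

theorem self_mem_B (m : ℕ) (y : X K) : y ∈ B m y := Relation.ReflTransGen.refl

theorem B_subset {m : ℕ} {y z : X K} (h : z ∈ B m y) : B m z ⊆ B m y :=
  fun _ hw => Relation.ReflTransGen.trans h hw

instance : TopologicalSpace (X K) where
  IsOpen U := ∀ y ∈ U, ∃ m, B m y ⊆ U
  isOpen_univ _ _ := ⟨0, subset_univ _⟩
  isOpen_inter U V hU hV y hy := by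
    obtain ⟨m, hm⟩ := hU y hy.1
    obtain ⟨k, hk⟩ := hV y hy.2
    exact ⟨max m k, subset_inter (fun z hz => hm (B_anti (le_max_left _ _) _ hz))
      (fun z hz => hk (B_anti (le_max_right _ _) _ hz))⟩
  isOpen_sUnion S hS y hy := by
    obtain ⟨U, hU, hyU⟩ := hy
    obtain ⟨m, hm⟩ := hS U hU y hyU
    exact ⟨m, fun z hz => ⟨U, hU, hm hz⟩⟩

theorem isOpen_iff {U : Set (X K)} : IsOpen U ↔ ∀ y ∈ U, ∃ m, B m y ⊆ U := Iff.rfl

theorem isOpen_B (m : ℕ) (y : X K) : IsOpen (B m y) :=
  isOpen_iff.2 fun _ hz => ⟨m, B_subset hz⟩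

theorem nhds_basis (y : X K) : (𝓝 y).HasBasis (fun _ : ℕ => True) (fun m => B m y) := by
  refine ⟨fun t => ?_⟩
  rw [mem_nhds_iff]
  constructor
  · rintro ⟨U, hUt, hU, hyU⟩
    obtain ⟨m, hm⟩ := isOpen_iff.1 hU y hyU
    exact ⟨m, trivial, hm.trans hUt⟩
  · rintro ⟨m, -, hm⟩
    exact ⟨B m y, hm, isOpen_B m y, self_mem_B m y⟩

instance : FirstCountableTopology (X K) := ⟨fun y => (nhds_basis y).isCountablyGenerated⟩

/-- The order of a link, plus one; zero for the other points. -/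
def lab : X K → ℕ
  | ⟨.base, _⟩ => 0
  | ⟨.F _, _⟩ => 0
  | ⟨.L j _, _⟩ => j + 1

/-- The same for codes. -/
def labC : Code → ℕ
  | .base => 0
  | .F _ => 0
  | .L j _ => j + 1

theorem lab_eq (t : Code) (x : El K t) : lab (⟨t, x⟩ : X K) = labC t := by
  cases t <;> rfl

theorem reach {m : ℕ} {y z : X K} (h : z ∈ B m y) : z = y ∨ m < lab z := by
  rcases Relation.ReflTransGen.cases_tail h with h | ⟨w, -, hw⟩
  · exact Or.inl h
  · right
    cases hw with
    | fst t j x c h1 => exact Nat.lt_succ_of_le h1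
    | snd t j x c h1 h2 => exact Nat.lt_succ_of_le h1

/-- An obstruction to the disjointness of basic neighbourhoods. -/
def Bad (m : ℕ) (y z : X K) : Prop :=
  ∃ (t : Code) (c : El K t → ℕ) (x : El K t), z = ⟨.F t, c⟩ ∧ (⟨t, x⟩ : X K) ∈ B m y ∧ m ≤ c x

theorem meet {m : ℕ} {y z : X K} (w : X K) (hy : w ∈ B m y) (hz : w ∈ B m z) :
    y = z ∨ m < lab y ∨ m < lab z ∨ Bad m y z ∨ Bad m z y := by
  induction hy with
  | refl =>
    rcases reach hz with h | h
    · exact Or.inl h
    · exact Or.inr (Or.inl h)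
  | @tail w' w hw' hw ih =>
    rcases Relation.ReflTransGen.cases_tail hz with h | ⟨w'', hw'', h⟩
    · right; right; left
      subst h
      cases hw with
      | fst t j x c h1 => exact Nat.lt_succ_of_le h1
      | snd t j x c h1 h2 => exact Nat.lt_succ_of_le h1
    · cases hw with
      | fst t j x c h1 =>
        cases h with
        | fst _ _ _ _ _ => exact ih hw''
        | snd _ _ _ _ h3 h4 =>
          rcases reach hw'' with h5 | h5
          · exact Or.inr (Or.inr (Or.inr (Or.inl ⟨t, c, x, h5.symm, hw', h4⟩)))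
          · exact absurd h5 (Nat.not_lt_zero _)
      | snd t j x c h1 h2 =>
        cases h with
        | fst _ _ _ _ _ =>
          rcases reach hw' with h5 | h5
          · exact Or.inr (Or.inr (Or.inr (Or.inr ⟨t, c, x, h5.symm, hw'', h2⟩)))
          · exact absurd h5 (Nat.not_lt_zero _)
        | snd _ _ _ _ _ _ => exact ih hw''

theorem not_bad {y z : X K} : ∃ M, ∀ m, M ≤ m → y = z ∨ ¬ Bad m y z := by
  obtain ⟨s, e⟩ := z
  cases s with
  | base =>
    refine ⟨0, fun m _ => Or.inr ?_⟩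
    rintro ⟨t, c, x, h, -⟩
    exact Code.noConfusion (congrArg Sigma.fst h)
  | L j s =>
    refine ⟨0, fun m _ => Or.inr ?_⟩
    rintro ⟨t, c, x, h, -⟩
    exact Code.noConfusion (congrArg Sigma.fst h)
  | F s =>
    by_cases hy : ∃ x : El K s, y = ⟨s, x⟩
    · obtain ⟨x, rfl⟩ := hy
      refine ⟨max (labC s) ((e : El K s → ℕ) x + 1), fun m hm => Or.inr ?_⟩
      rintro ⟨t, c, x', h, h1, h2⟩
      have ht : s = t := by
        have := congrArg Sigma.fst h
        exact Code.F.inj this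
      subst ht
      have he : e = c := eq_of_heq (Sigma.mk.inj h).2
      subst he
      rcases reach h1 with h3 | h3
      · have hx : x' = x := eq_of_heq (Sigma.mk.inj h3).2
        subst hx
        have := (le_max_right _ _).trans hm
        omega
      · rw [lab_eq] at h3
        have := (le_max_left _ _).trans hm
        omega
    · refine ⟨labC s, fun m hm => Or.inr ?_⟩
      rintro ⟨t, c, x', h, h1, h2⟩
      have ht : s = t := by
        have := congrArg Sigma.fst h
        exact Code.F.inj this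
      subst ht
      rcases reach h1 with h3 | h3
      · exact hy ⟨x', h3.symm⟩
      · rw [lab_eq] at h3
        omega

instance : T2Space (X K) where
  t2 y z hyz := by
    obtain ⟨M, hM⟩ := not_bad (y := y) (z := z)
    obtain ⟨N, hN⟩ := not_bad (y := z) (z := y)
    let m := max (max (lab y) (lab z)) (max M N)
    refine ⟨B m y, B m z, isOpen_B _ _, isOpen_B _ _, self_mem_B _ _, self_mem_B _ _, ?_⟩
    rw [Set.disjoint_left]
    intro w hwy hwz
    have h1 : lab y ≤ m := (le_max_left _ _).trans (le_max_left _ _)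
    have h2 : lab z ≤ m := (le_max_right _ _).trans (le_max_left _ _)
    have h3 : M ≤ m := (le_max_left _ _).trans (le_max_right _ _)
    have h4 : N ≤ m := (le_max_right _ _).trans (le_max_right _ _)
    rcases meet w hwy hwz with h | h | h | h | h
    · exact hyz h
    · omega
    · omega
    · rcases hM m h3 with h' | h'
      · exact hyz h'
      · exact h' h
    · rcases hN m h4 with h' | h'
      · exact hyz h'.symm
      · exact h' h

theorem mem_closure_B {t : Code} {x : El K t} {c : El K t → ℕ} {k : ℕ} (h : k ≤ c x) :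
    (⟨t, x⟩ : X K) ∈ closure (B k (⟨.F t, c⟩ : X K)) := by
  refine (mem_closure_iff_nhds_basis (nhds_basis (⟨t, x⟩ : X K))).2 fun m _ => ?_
  refine ⟨(⟨.L (max m k) t, (x, c)⟩ : X K), ?_, ?_⟩
  · exact Relation.ReflTransGen.single (.snd t _ x c (le_max_right _ _) h)
  · exact Relation.ReflTransGen.single (.fst t _ x c (le_max_left _ _))

theorem nonMeasurable_El (hK : NonMeasurable K) (t : Code) : NonMeasurable (El K t) := by
  induction t with
  | base => exact hK
  | F t ih => exact ih.arrow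
  | L j t ih => exact ih.prod ih.arrow

theorem almostLindelof (hK : NonMeasurable K) : AlmostLindelof (X K) := by
  intro 𝒰 hU hcov
  have h1 : ∀ y : X K, ∃ U ∈ 𝒰, ∃ n, B n y ⊆ U := by
    intro y
    obtain ⟨U, hUU, hy⟩ := mem_sUnion.1 (show y ∈ ⋃₀ 𝒰 from hcov ▸ mem_univ y)
    obtain ⟨n, hn⟩ := isOpen_iff.1 (hU U hUU) y hy
    exact ⟨U, hUU, n, hn⟩
  choose U hUU n hn using h1
  have h2 : ∀ t : Code, ∃ C : Set (El K t → ℕ), C.Countable ∧
      {x | ∀ c ∈ C, c x < n ⟨.F t, c⟩}.Countable := fun t =>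
    exists_countable (nonMeasurable_El hK t) (fun c => n ⟨.F t, c⟩)
  choose C hC hE using h2
  refine ⟨(⋃ t, (fun c : El K t → ℕ => U ⟨.F t, c⟩) '' C t) ∪
    ⋃ t, (fun x : El K t => U ⟨t, x⟩) '' {x | ∀ c ∈ C t, c x < n ⟨.F t, c⟩}, ?_, ?_, ?_⟩
  · rintro V (hV | hV)
    · obtain ⟨t, c, -, rfl⟩ := mem_iUnion.1 hV
      exact hUU _
    · obtain ⟨t, c, -, rfl⟩ := mem_iUnion.1 hV
      exact hUU _
  · exact (countable_iUnion fun t => (hC t).image _).union
      (countable_iUnion fun t => (hE t).image _)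
  · rw [eq_univ_iff_forall]
    rintro ⟨t, x⟩
    by_cases hx : ∀ c ∈ C t, c x < n ⟨.F t, c⟩
    · refine mem_iUnion₂.2 ⟨U ⟨t, x⟩, Or.inr (mem_iUnion.2 ⟨t, x, hx, rfl⟩), ?_⟩
      exact subset_closure (hn _ (self_mem_B _ _))
    · push Not at hx
      obtain ⟨c, hc, hcx⟩ := hx
      refine mem_iUnion₂.2 ⟨U ⟨.F t, c⟩, Or.inl (mem_iUnion.2 ⟨t, c, hc, rfl⟩), ?_⟩
      exact closure_mono (hn _) (mem_closure_B hcx)

/-! ### Necessity -/

theorem nonMeasurable_of_pwL {Y : Type u} [TopologicalSpace Y] [T2Space Y]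
    [FirstCountableTopology Y] (hY : PwLCountable Y) (e : K ↪ Y) : NonMeasurable K := by
  intro 𝒢₀ h𝒢₀
  by_contra hcon
  push Not at hcon
  let 𝒢 : Ultrafilter Y := 𝒢₀.map e
  have h𝒢 : CountableInterFilter (𝒢 : Filter Y) := map_ci h𝒢₀ e
  have hne : ∀ y : Y, ({y} : Set Y)ᶜ ∈ 𝒢 := by
    intro y
    rw [Ultrafilter.compl_mem_iff_notMem]
    intro h
    have h' : e ⁻¹' {y} ∈ 𝒢₀ := h
    obtain ⟨a, ha⟩ := 𝒢₀.nonempty_of_mem h'
    apply hcon a
    refine mem_of_superset h' ?_
    intro b hb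
    exact e.injective ((show e b = y from hb).trans (show e a = y from ha).symm)
  have hW : ∀ y : Y, ∃ W : ℕ → Set Y, (𝓝 y).HasAntitoneBasis W := fun y =>
    (𝓝 y).exists_antitone_basis
  choose W hW using hW
  have hb : ∀ y : Y, ∃ b : ℕ, {x | Disjoint (W x b) (W y b)} ∈ 𝒢 := by
    intro y
    apply exists_mem_of_iUnion h𝒢
    refine mem_of_superset (hne y) ?_
    intro x hx
    have hxy : x ≠ y := hx
    obtain ⟨U, V, hU, hV, hxU, hyV, hd⟩ := t2_separation hxy
    obtain ⟨i, -, hi⟩ := (hW x).1.mem_iff.1 (hU.mem_nhds hxU)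
    obtain ⟨j, -, hj⟩ := (hW y).1.mem_iff.1 (hV.mem_nhds hyV)
    refine mem_iUnion.2 ⟨max i j, ?_⟩
    refine hd.mono (((hW x).2 (le_max_left i j)).trans hi) (((hW y).2 (le_max_right i j)).trans hj)
  choose b hb using hb
  let D : ULift.{u} ℕ → Set (Set Y) := fun i => {V | ∃ y, b y = i.down ∧ V = interior (W y (b y))}
  obtain ⟨V, hV, hVc⟩ := hY (⋃ i, D i) (by
    intro U hU
    obtain ⟨i, y, -, rfl⟩ := mem_iUnion.1 hU
    exact isOpen_interior) (by
    rw [eq_univ_iff_forall]
    intro y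
    refine mem_sUnion.2 ⟨interior (W y (b y)), mem_iUnion.2 ⟨⟨b y⟩, y, rfl, rfl⟩, ?_⟩
    exact mem_interior_iff_mem_nhds.2 ((hW y).1.mem_of_mem trivial)) _ D rfl
  have h1 : ∀ i, ∀ O ∈ V i, {x | Disjoint (W x i.down) O} ∈ 𝒢 := by
    intro i O hO
    obtain ⟨y, hy, rfl⟩ := (hV i).1 hO
    refine mem_of_superset (hb y) ?_
    intro x hx
    rw [← hy]
    exact Disjoint.mono_right interior_subset hx
  have h2 : {x | ∀ i, ∀ O ∈ V i, Disjoint (W x i.down) O} ∈ (𝒢 : Filter Y) := by
    have h3 : (⋂ i, ⋂ O ∈ V i, {x | Disjoint (W x i.down) O}) ∈ (𝒢 : Filter Y) := by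
      rw [countable_iInter_mem]
      intro i
      rw [countable_bInter_mem (hV i).2]
      exact h1 i
    refine mem_of_superset h3 ?_
    intro x hx i O hO
    exact mem_iInter₂.1 (mem_iInter.1 hx i) O hO
  obtain ⟨x, hx⟩ := 𝒢.nonempty_of_mem h2
  have hx' : x ∈ ⋃ i, closure (⋃₀ V i) := hVc ▸ mem_univ x
  obtain ⟨i, hi⟩ := mem_iUnion.1 hx'
  rw [mem_closure_iff_nhds] at hi
  obtain ⟨z, hz, O, hO, hzO⟩ := hi (W x i.down) ((hW x).1.mem_of_mem trivial)
  exact Set.disjoint_left.1 (hx i O hO) hz hzO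

/-- The embedding of `K` into the space. -/
def emb (K : Type u) : K ↪ X K := ⟨fun a => ⟨.base, a⟩, fun _ _ h => eq_of_heq (Sigma.mk.inj h).2⟩

/-- (1) There is a Hausdorff first countable space with countable piecewise weak Lindelöf number
(even an almost Lindelöf one) of cardinality greater than the continuum; so
`|X| ≤ 2 ^ (pwL(X) · χ(X))` fails for it.

(2) For every set `K` the following are equivalent: every countably complete ultrafilter on `K` is
principal; `K` embeds in a Hausdorff first countable almost Lindelöf space; `K` embeds in a Hausdorff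
first countable space with countable piecewise weak Lindelöf number. -/
theorem result :
    (∃ (X : Type) (_ : TopologicalSpace X), T2Space X ∧ FirstCountableTopology X ∧
      AlmostLindelof X ∧ PwLCountable X ∧ Cardinal.continuum < Cardinal.mk X) ∧
    ∀ K : Type u, List.TFAE [NonMeasurable K,
      ∃ (X : Type u) (_ : TopologicalSpace X), T2Space X ∧ FirstCountableTopology X ∧
        AlmostLindelof X ∧ Nonempty (K ↪ X),
      ∃ (X : Type u) (_ : TopologicalSpace X), T2Space X ∧ FirstCountableTopology X ∧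
        PwLCountable X ∧ Nonempty (K ↪ X)] := by
  refine ⟨?_, ?_⟩
  · have hN : NonMeasurable ((ℕ → ℕ) → ℕ) := (nonMeasurable_of_countable (K := ℕ)).arrow.arrow
    refine ⟨X ((ℕ → ℕ) → ℕ), inferInstance, inferInstance, inferInstance, almostLindelof hN,
      (almostLindelof hN).pwL, ?_⟩
    refine lt_of_lt_of_le ?_ (Cardinal.mk_le_of_injective (emb ((ℕ → ℕ) → ℕ)).injective)
    rw [← Cardinal.power_def, ← Cardinal.power_def, Cardinal.mk_nat, Cardinal.aleph0_power_aleph0]
    refine lt_of_lt_of_le (Cardinal.cantor _) (Cardinal.power_le_power_right ?_)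
    exact (Cardinal.natCast_lt_aleph0 (n := 2)).le
  · intro K
    tfae_have 1 → 2
    | h => ⟨X K, inferInstance, inferInstance, inferInstance, almostLindelof h, ⟨emb K⟩⟩
    tfae_have 2 → 3
    | ⟨X, t, h1, h2, h3, h4⟩ => ⟨X, t, h1, h2, h3.pwL, h4⟩
    tfae_have 3 → 1
    | ⟨X, t, h1, h2, h3, ⟨e⟩⟩ => nonMeasurable_of_pwL h3 e
    tfae_finish

end Pool.Agent.Results.MP_8b81fd_gt.NotBounded
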